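import Mathlib

set_option autoImplicit false

namespace Pool.Agent.Results.MP_bc764a_al.Sufficient

open Set Pointwise

variable {G : Type} [Group G]

/-- `⟨ρ_i : i ∈ I⟩`. -/
def gen (ρ : ℕ → G) (I : Set ℕ) : Subgroup G := Subgroup.closure (ρ '' I)

/-- `S^φ = φ⁻¹ S φ`. -/
def cj (S : Subgroup G) (φ : G) : Subgroup G := S.comap (MulAut.conj φ).toMonoidHom

/-- `G` is a string C-group of rank `n` with generators `ρ 0, …, ρ (n - 1)`. -/
structure IsStringC (ρ : ℕ → G) (n : ℕ) : Prop where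
  top : gen ρ (Iio n) = ⊤
  inv : ∀ i < n, orderOf (ρ i) = 2
  comm : ∀ i j, i + 2 ≤ j → j < n → (ρ i * ρ j) ^ 2 = 1
  inter : ∀ I ⊆ Iio n, ∀ J ⊆ Iio n, gen ρ I ⊓ gen ρ J = gen ρ (I ∩ J)

/-- `S` is semisparse in the string C-group generated by `ρ a, …, ρ (b - 1)`. -/
structure Semisparse (ρ : ℕ → G) (a b : ℕ) (S : Subgroup G) : Prop where
  one : ∀ φ ∈ gen ρ (Ico a b), ∀ i ∈ Ico a b,
    (cj S φ : Set G) ∩ ((gen ρ (Ico a b \ {i}) : Set G) * {ρ i}) = ∅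
  two : ∀ φ ∈ gen ρ (Ico a b), ∀ i k j, a ≤ i → i < k → k < j → j < b →
    (gen ρ (Ioo i b) : Set G) ∩ ((gen ρ (Ico a j) : Set G) * (cj S φ : Set G)) ⊆
      (gen ρ (Ico a b \ {k}) : Set G) * (gen ρ (Ioo i b) ⊓ gen ρ (Ico a j) : Subgroup G) *
        (cj S φ : Set G)
  three : ∀ i, a ≤ i → i + 1 < b →
    (gen ρ (Ioo i b) : Set G) ∩ ((gen ρ (Ico a (i + 1)) : Set G) * (S : Set G)) ⊆ S

variable {ρ : ℕ → G} {n : ℕ} {S : Subgroup G}

lemma mono {I J : Set ℕ} {g : G} (hg : g ∈ gen ρ I) (h : ∀ i, i ∈ I → i ∈ J) : g ∈ gen ρ J :=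
  Subgroup.closure_mono (image_mono h) hg

lemma cj_one : cj S 1 = S := by ext; simp [cj]

lemma cj_eq (φ : G) : cj S φ = MulAction.stabilizer G ((φ⁻¹ : G) : G ⧸ S) := by
  ext x
  rw [MulAction.mem_stabilizer_iff, MulAction.Quotient.smul_coe, eq_comm, QuotientGroup.eq]
  simp [cj, mul_assoc]

lemma split (h : IsStringC ρ n) {a b k : ℕ} (hb : b ≤ n) {t : G} (ht : t ∈ gen ρ (Ico a b \ {k})) :
    ∃ x ∈ gen ρ (Ico a k), ∃ y ∈ gen ρ (Ioo k b), x * y = t ∧ y * x = t := by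
  have h1 : gen ρ (Ico a k) ≤ Subgroup.centralizer (gen ρ (Ioo k b)) := by
    rw [gen, gen, Subgroup.centralizer_closure, Subgroup.closure_le]
    rintro _ ⟨i, hi, rfl⟩ _ ⟨j, hj, rfl⟩
    have h2 (l) (hl : l < n) : (ρ l)⁻¹ = ρ l :=
      inv_eq_of_mul_eq_one_left (by rw [← sq, ← h.inv l hl, pow_orderOf_eq_one])
    have := inv_eq_of_mul_eq_one_left (sq (ρ i * ρ j) ▸ h.comm i j (by grind) (by grind))
    rwa [mul_inv_rev, h2 i (by grind), h2 j (by grind)] at this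
  have h2 : t ∈ gen ρ (Ico a k) ⊔ gen ρ (Ioo k b) := by
    rw [gen, gen, ← Subgroup.closure_union, ← image_union]
    exact mono ht (by grind)
  rw [← SetLike.mem_coe, Subgroup.coe_mul_of_left_le_normalizer_right _ _
    (h1.trans (Subgroup.centralizer_le_normalizer _))] at h2
  obtain ⟨x, hx, y, hy, e⟩ := h2
  exact ⟨x, hx, y, hy, e, (h1 hx y hy).trans e⟩

lemma ip (h : IsStringC ρ n) {a b : ℕ} (hb : b ≤ n)
    (H : ∀ f : G ⧸ S, Semisparse ρ a b (MulAction.stabilizer G f ⊓ gen ρ (Ico a b))) (d : ℕ) :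
    ∀ i j, j = i + 1 + d → a ≤ i + 1 → j ≤ b → ∀ (f : G ⧸ S), ∀ g ∈ gen ρ (Ioo i b),
      ∀ y ∈ gen ρ (Ico a j), g • f = y • f → ∃ u ∈ gen ρ (Ioo i j), u • f = g • f := by
  induction d using Nat.strong_induction_on with
  | h d ih =>
    intro i j hj ha hjb f g hg y hy e
    rcases ha.eq_or_lt with ha | ha
    · exact ⟨y, mono hy (by grind), e.symm⟩
    rcases hjb.eq_or_lt with rfl | hjb
    · exact ⟨g, hg, rfl⟩
    have h1 : y⁻¹ * g ∈ MulAction.stabilizer G f ⊓ gen ρ (Ico a b) :=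
      Subgroup.mem_inf.mpr
        ⟨by simp [mul_smul, e], mul_mem (inv_mem (mono hy (by grind))) (mono hg (by grind))⟩
    rcases d with _ | d
    · subst hj
      exact ⟨1, one_mem _, (one_smul _ _).trans
        ((H f).three i (by omega) hjb ⟨hg, y, hy, _, h1, by simp⟩).1.symm⟩
    obtain ⟨_, ⟨t, ht, u, hu, rfl⟩, s, hs, e'⟩ := (H f).two 1 (one_mem _) i (i + 1) j (by omega)
      (by omega) (by omega) hjb ⟨hg, y, hy, _, cj_one.ge h1, by simp⟩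
    obtain ⟨x, hx, z, hz, rfl, -⟩ := split h hb ht
    have h2 : g • f = x • z • u • f := by
      rw [← e']; simp only [mul_smul, show s • f = f from (cj_one.le hs).1]
    obtain ⟨v, hv, e1⟩ := ih d (by omega) (i + 1) j (by omega) (by omega) hjb.le (u • f) z hz
      (x⁻¹ * y * u⁻¹) (mul_mem (mul_mem (inv_mem (mono hx (by grind))) hy) (inv_mem hu.2))
      (by simp [mul_smul, ← e, h2])
    obtain ⟨w, hw, e2⟩ := ih 0 (by omega) i (i + 1) rfl ha.le (by omega) (z • u • f)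
      (g * u⁻¹ * z⁻¹) (mul_mem (mul_mem hg (inv_mem hu.1)) (inv_mem (mono hz (by grind)))) x hx
      (by simp [mul_smul, h2])
    rw [SetLike.mem_coe, h.inter _ (by grind) _ (by grind)] at hu
    exact ⟨w * v * u, mul_mem (mul_mem (mono hw (by grind)) (mono hv (by grind)))
      (mono hu (by grind)), by simp [mul_smul, e1, e2]⟩

/-- Hartley's necessary conditions for semisparseness are sufficient. -/
theorem result (G : Type) [Group G] (n : ℕ) (hn : 2 ≤ n) (ρ : ℕ → G) (h : IsStringC ρ n)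
    (S : Subgroup G) (h0 : ∀ φ, Semisparse ρ 1 n (cj S φ ⊓ gen ρ (Ico 1 n)))
    (h1 : ∀ φ, Semisparse ρ 0 (n - 1) (cj S φ ⊓ gen ρ (Ico 0 (n - 1))))
    (h2 : ∀ φ, (cj S φ : Set G) ∩ ((gen ρ (Ico 1 n) : Set G) * (gen ρ (Ico 0 (n - 1)) : Set G)) =
      (cj S φ ⊓ gen ρ (Ico 1 n) : Subgroup G) * (cj S φ ⊓ gen ρ (Ico 0 (n - 1)) : Subgroup G)) :
    Semisparse ρ 0 n S := by
  have hf (f : G ⧸ S) : ∃ φ, cj S φ = MulAction.stabilizer G f := by
    obtain ⟨x, rfl⟩ := QuotientGroup.mk_surjective f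
    exact ⟨x⁻¹, by rw [cj_eq, inv_inv]⟩
  have H0 (f : G ⧸ S) : Semisparse ρ 1 n (MulAction.stabilizer G f ⊓ gen ρ (Ico 1 n)) :=
    (hf f).elim fun φ e => e ▸ h0 φ
  have H1 (f : G ⧸ S) :
      Semisparse ρ 0 (n - 1) (MulAction.stabilizer G f ⊓ gen ρ (Ico 0 (n - 1))) :=
    (hf f).elim fun φ e => e ▸ h1 φ
  have key (i j) (hij : i < j) (hj : j < n) (φ g) (hg : g ∈ gen ρ (Ioo i n)) (y)
      (hy : y ∈ gen ρ (Ico 0 j)) (e : y⁻¹ * g ∈ cj S φ) :
      ∃ u ∈ gen ρ (Ioo i j), u⁻¹ * g ∈ cj S φ := by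
    have hg' : g ∈ gen ρ (Ico 1 n) := mono hg (by grind)
    have hy' : y ∈ gen ρ (Ico 0 (n - 1)) := mono hy (by grind)
    obtain ⟨a, ha, b, hb, e'⟩ := (h2 φ).le ⟨(by simpa using inv_mem e : g⁻¹ * y ∈ cj S φ),
      _, inv_mem hg', _, hy', rfl⟩
    have hc : g * a ∈ gen ρ (Ico 1 n) ⊓ gen ρ (Ico 0 (n - 1)) := ⟨mul_mem hg' ha.2, by
      rw [eq_mul_inv_of_mul_eq e']; simpa [← mul_assoc] using mul_mem hy' (inv_mem hb.2)⟩
    rw [h.inter _ (by grind) _ (by grind)] at hc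
    simp only [cj_eq, MulAction.mem_stabilizer_iff, mul_smul, inv_smul_eq_iff] at e ⊢
    obtain ⟨u, hu, e1⟩ := ip h le_rfl H0 (n - 1 - (i + 1)) i (n - 1) (by omega) (by omega)
      (by omega) _ g hg _ (mono hc (by grind)) (by rw [mul_smul, (cj_eq φ).le ha.1])
    obtain ⟨v, hv, e2⟩ := ip h (Nat.sub_le n 1) H1 (j - (i + 1)) i j (by omega) (by omega)
      (by omega) _ u hu y hy (e1.trans e)
    exact ⟨v, hv, (e2.trans e1).symm⟩
  have key' (i) (hi : i + 1 < n) (φ g) (hg : g ∈ gen ρ (Ioo i n)) (y)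
      (hy : y ∈ gen ρ (Ico 0 (i + 1))) (e : y⁻¹ * g ∈ cj S φ) : g ∈ cj S φ := by
    obtain ⟨u, hu, e⟩ := key i (i + 1) (by omega) hi φ g hg y hy e
    rw [show u = 1 by simpa [gen] using mono (J := ∅) hu (by grind)] at e
    simpa using e
  have hρ (i) {I : Set ℕ} (hi : i ∈ I) : ρ i ∈ gen ρ I := Subgroup.subset_closure ⟨i, hi, rfl⟩
  refine ⟨fun φ _ i hi => eq_empty_of_forall_notMem ?_, fun φ _ i k j _ h3 h4 h5 => ?_,
    fun i _ hi => ?_⟩
  · rintro _ ⟨hs, t, ht, _, rfl, rfl⟩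
    obtain ⟨x, hx, z, hz, e, e'⟩ := split h le_rfl ht
    rcases i with _ | i
    · have h3 : x * ρ 0 ∈ gen ρ (Ico 0 (0 + 1)) := mul_mem (mono hx (by grind)) (hρ 0 (by grind))
      have h4 := key' 0 (by omega) φ _ (inv_mem hz) _ h3 (by simpa [← e', mul_assoc] using inv_mem hs)
      exact eq_empty_iff_forall_notMem.mp ((h1 φ).one 1 (one_mem _) 0 (by grind)) (x * ρ 0) ⟨cj_one.ge
        ⟨by simpa [← e', mul_assoc] using mul_mem h4 hs, mono h3 (by grind)⟩,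
          x, mono hx (by grind), _, rfl, rfl⟩
    have h3 : z * ρ (i + 1) ∈ gen ρ (Ioo i n) := mul_mem (mono hz (by grind)) (hρ _ (by grind))
    exact eq_empty_iff_forall_notMem.mp ((h0 φ).one 1 (one_mem _) (i + 1) (by grind)) _ ⟨cj_one.ge
      ⟨key' i hi.2 φ _ h3 _ (inv_mem hx) (by simpa [← e, mul_assoc] using hs), mono h3 (by grind)⟩,
        z, mono hz (by grind), _, rfl, rfl⟩
  · rintro _ ⟨hg, y, hy, s, hs, rfl⟩
    obtain ⟨u, hu, e⟩ := key i j (by omega) h5 φ _ hg y hy (by simpa using hs)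
    exact ⟨_, ⟨1, one_mem _, u, ⟨mono hu (by grind), mono hu (by grind)⟩, rfl⟩, _, e, by simp⟩
  rintro _ ⟨hg, y, hy, s, hs, rfl⟩
  exact cj_one.le (key' i hi 1 _ hg y hy (cj_one.ge (by simpa using hs)))

end Pool.Agent.Results.MP_bc764a_al.Sufficient
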